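import Mathlib

namespace Pool.Agent.H.MP_913bbb_co

open Finset SimpleGraph

def tb : List (List (ℤ × ℤ)) := [[],
  [(-31, -22), (-79, 48), (-79, 48), (-79, 48), (-79, 48), (-79, 48), (-79, 48), (-79, 48)],
  [(-22, -22), (-70, 17), (-31, 9), (-31, 17), (-31, 17), (-31, 17), (-31, 17), (-31, 17)],
  [(-22, -22), (-70, 9), (-39, 9), (-14, -8), (-14, 3), (-14, 9), (-14, 9), (-14, 9)],
  [(-22, -26), (-70, 5), (-39, 5), (-25, -12), (-11, -15), (-11, -8), (-11, 5), (-11, 5)],
  [(-26, -32), (-74, -3), (-43, -3), (-35, -18), (-18, -21), (-13, -19), (-13, -19), (-13, -3)],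
  [(-26, -41), (-74, -22), (-43, -22), (-35, -27), (-31, -30), (-13, -28), (-13, -28), (-13, -22)],
  [(-32, -51), (-80, -35), (-49, -35), (-41, -37), (-37, -40), (-29, -38), (-19, -38), (-16, -35)]]

def g (d p : ℕ) (s : Bool) : ℤ :=
  if s then ((tb.getD d []).getD p (0, 0)).2 else ((tb.getD d []).getD p (0, 0)).1

def h (d : ℕ) (s : Bool) (k : ℕ) : ℤ :=
  if s then g k d false else max (g k d false) (g k d true)

def f (s : Bool) : ℤ := if s then 48 else -79

theorem chk : ∀ d ∈ Icc 1 7, ∀ p ∈ range 8, ∀ s : Bool, ∃ k ∈ Icc 1 7,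
    h d s 7 ≤ h d s k ∧ (d = 7 → h d s k ≤ 0) ∧
    f s + ∑ j ∈ (Icc 1 6).erase p, max (h d s j - h d s k) 0 +
      h d s k * ((if p = 0 then d else d - 1 : ℕ) : ℤ) ≤ g d p s := by decide +kernel

theorem chk0 : ∀ d ∈ Icc 1 7, ∀ s : Bool, g d 0 s ≤ -22 := by decide +kernel

theorem loc {V : Type} (N : Finset V) (D : V → ℕ) (t : V → Bool) (d p : ℕ) (s : Bool)
    (hd : 1 ≤ d) (hN : N.card = if p = 0 then d else d - 1) (h1 : ∀ c ∈ N, 1 ≤ D c ∧ D c ≠ p)
    (hinj : Set.InjOn D N) (hs : ∀ c ∈ N, s = true → t c = false) :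
    f s + ∑ c ∈ N, g (min (D c) 7) (min d 7) (t c) ≤ g (min d 7) (min p 7) s := by
  classical
  obtain ⟨k, -, k1, k2, k3⟩ := chk (min d 7) (by simp; omega) (min p 7) (by simp) s
  set τ := h (min d 7) s k with hτ
  have a1 : ∀ c ∈ N, g (min (D c) 7) (min d 7) (t c) ≤
      τ + if D c ≤ 6 then max (h (min d 7) s (D c) - τ) 0 else 0 := by
    intro c hc
    have b1 : g (min (D c) 7) (min d 7) (t c) ≤ h (min d 7) s (min (D c) 7) := by
      unfold h
      cases s
      · cases t c <;> simp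
      · simp [hs c hc rfl]
    split_ifs with hh
    · rw [min_eq_left (by omega : D c ≤ 7)] at b1 ⊢
      have := le_max_left (h (min d 7) s (D c) - τ) 0
      linarith
    · rw [min_eq_right (by omega : 7 ≤ D c)] at b1 ⊢
      linarith
  have a2 := Finset.sum_le_sum a1
  rw [Finset.sum_add_distrib, Finset.sum_const, ← Finset.sum_filter, nsmul_eq_mul] at a2
  have a3 : ∑ c ∈ N.filter (fun c => D c ≤ 6), max (h (min d 7) s (D c) - τ) 0 ≤
      ∑ j ∈ (Icc 1 6).erase (min p 7), max (h (min d 7) s j - τ) 0 := by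
    rw [← Finset.sum_image (s := N.filter (fun c => D c ≤ 6)) (g := D)
      (f := fun j => max (h (min d 7) s j - τ) 0)
      (hinj.mono (by intro x hx; exact (mem_filter.1 hx).1))]
    refine Finset.sum_le_sum_of_subset_of_nonneg ?_ fun j _ _ => le_max_right _ _
    intro j hj
    obtain ⟨c, hc, rfl⟩ := mem_image.1 hj
    obtain ⟨hc1, hc2⟩ := mem_filter.1 hc
    have := h1 c hc1
    simp only [mem_erase, mem_Icc]
    omega
  have a4 : (N.card : ℤ) * τ ≤ τ * ((if min p 7 = 0 then min d 7 else min d 7 - 1 : ℕ) : ℤ) := by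
    rw [mul_comm]
    by_cases hd7 : d ≤ 7
    · rw [hN, min_eq_left hd7]
      apply le_of_eq
      congr 2
      split_ifs <;> omega
    · refine mul_le_mul_of_nonpos_left ?_ (k2 (by omega))
      rw [hN]
      split_ifs <;> omega
  linarith

theorem uniq {V : Type} {G : SimpleGraph V} (hT : G.IsTree) {r v a b : V} (ha : G.Adj a v)
    (hb : G.Adj b v) (da : G.dist r a + 1 = G.dist r v) (db : G.dist r b + 1 = G.dist r v) :
    a = b := by
  obtain ⟨p, hp⟩ := hT.connected.exists_walk_length_eq_dist r a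
  obtain ⟨q, hq⟩ := hT.connected.exists_walk_length_eq_dist r b
  have h1 : (p.concat ha).IsPath := Walk.isPath_of_length_eq_dist _ (by simp [hp, da])
  have h2 : (q.concat hb).IsPath := Walk.isPath_of_length_eq_dist _ (by simp [hq, db])
  have := congrArg Subtype.val ((hT.isAcyclic.subsingleton_path r v).elim ⟨_, h1⟩ ⟨_, h2⟩)
  exact (Walk.concat_inj this).1

theorem par {V : Type} {G : SimpleGraph V} (hT : G.IsTree) (r v : V) :
    ∃ a, v ≠ r → G.Adj a v ∧ G.dist r a + 1 = G.dist r v := by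
  by_cases hv : v = r
  · exact ⟨v, fun h => absurd hv h⟩
  obtain ⟨p, hp⟩ := hT.connected.exists_walk_length_eq_dist v r
  cases p with
  | nil => exact absurd rfl hv
  | cons e q =>
    rename_i a
    refine ⟨a, fun _ => ⟨e.symm, ?_⟩⟩
    have h1 := G.dist_le q
    rw [Walk.length_cons] at hp
    rcases hT.dist_eq_dist_add_one_of_adj r e with h | h
    · omega
    · rw [G.dist_comm] at hp h1
      omega

theorem upper {V : Type} [Fintype V] {G : SimpleGraph V} (hT : G.IsTree)
    (hI : ∀ v a b, G.Adj v a → G.Adj v b → a ≠ b →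
      (G.neighborSet a).ncard ≠ (G.neighborSet b).ncard) (hn : 2 ≤ Fintype.card V) :
    127 * G.indepNum + 22 ≤ 79 * Fintype.card V := by
  classical
  obtain ⟨I, hI1, hI2⟩ := G.exists_isNIndepSet_indepNum
  have : Nontrivial V := Fintype.one_lt_card_iff_nontrivial.1 hn
  obtain ⟨r⟩ : Nonempty V := inferInstance
  choose π hπ using par hT r
  set D : V → ℕ := fun v => (G.neighborSet v).ncard with hD
  have hD1 : ∀ v, D v = (G.neighborFinset v).card := fun v => by
    simp only [hD]
    rw [← Set.ncard_coe_finset, coe_neighborFinset]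
  have hpos : ∀ v, 1 ≤ D v := fun v => by
    obtain ⟨w, hw⟩ := hT.connected.preconnected.exists_adj_of_nontrivial v
    rw [hD1]
    exact card_pos.2 ⟨w, by simpa using hw⟩
  set t : V → Bool := fun v => decide (v ∈ I) with ht
  set ch : V → Finset V := fun v => (univ.erase r).filter (fun c => π c = v) with hch
  have hmem : ∀ v c, c ∈ ch v ↔ G.Adj v c ∧ (v = r ∨ c ≠ π v) := by
    intro v c
    simp only [hch, mem_filter, mem_erase, mem_univ, and_true]
    constructor
    · rintro ⟨h1, rfl⟩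
      refine ⟨(hπ c h1).1, ?_⟩
      by_cases h2 : π c = r
      · exact Or.inl h2
      · refine Or.inr fun h3 => ?_
        have a := (hπ c h1).2
        have b := (hπ _ h2).2
        rw [← h3] at b
        omega
    · rintro ⟨h1, h2⟩
      rcases hT.dist_eq_dist_add_one_of_adj r h1 with h | h
      · have hv : v ≠ r := by
          rintro rfl
          simp at h
        exact absurd (uniq hT h1.symm (hπ v hv).1 h.symm (hπ v hv).2) (h2.resolve_left hv)
      · have hv : c ≠ r := by
          rintro rfl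
          simp at h
        exact ⟨hv, uniq hT (hπ c hv).1 h1 (hπ c hv).2 h.symm⟩
  have hinj : ∀ v, Set.InjOn D (ch v) := fun v a ha b hb e => by
    by_contra hne
    exact hI v a b ((hmem v a).1 ha).1 ((hmem v b).1 hb).1 hne e
  have hs : ∀ v, ∀ c ∈ ch v, t v = true → t c = false := fun v c hc h => by
    simp only [ht, decide_eq_true_eq, decide_eq_false_iff_not] at h ⊢
    have := ((hmem v c).1 hc).1
    exact fun h' => hI1 h h' this.ne this
  have l1 := loc (ch r) D t (D r) 0 (t r) (hpos r) (by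
    rw [if_pos rfl, hD1]
    congr 1
    ext c
    simp [hmem]) (fun c _ => ⟨hpos c, by have := hpos c; omega⟩) (hinj r) (hs r)
  have l2 : ∀ v ∈ univ.erase r, f (t v) + ∑ c ∈ ch v, g (min (D c) 7) (min (D v) 7) (t c) ≤
      g (min (D v) 7) (min (D (π v)) 7) (t v) := by
    intro v hv
    have hv' := (mem_erase.1 hv).1
    refine loc (ch v) D t (D v) (D (π v)) (t v) (hpos v) ?_ (fun c hc => ⟨hpos c, ?_⟩)
      (hinj v) (hs v)
    · rw [if_neg (by have := hpos (π v); omega), hD1,
        ← card_erase_of_mem (a := π v) (by simpa using (hπ v hv').1.symm)]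
      congr 1
      ext c
      simp [hmem, hv', and_comm]
    · obtain ⟨a, b⟩ := (hmem v c).1 hc
      exact hI v c (π v) a (hπ v hv').1.symm (b.resolve_left hv')
  have l3 := Finset.sum_le_sum l2
  have l4 : ∑ v, ∑ c ∈ ch v, g (min (D c) 7) (min (D v) 7) (t c) =
      ∑ c ∈ univ.erase r, g (min (D c) 7) (min (D (π c)) 7) (t c) := by
    rw [← Finset.sum_fiberwise_of_maps_to (s := univ.erase r) (t := univ) (g := π)
      (fun _ _ => mem_univ _)]
    refine Finset.sum_congr rfl fun v _ => Finset.sum_congr rfl fun c hc => ?_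
    rw [(mem_filter.1 hc).2]
  have l5 := chk0 (min (D r) 7) (by have := hpos r; simp; omega) (t r)
  have l6 : ∑ v, f (t v) = 127 * (I.card : ℤ) - 79 * Fintype.card V := by
    have : ∀ v, f (t v) = (if v ∈ I then 127 else 0) - 79 := fun v => by
      by_cases hv : v ∈ I <;> simp [f, ht, hv]
    simp only [this, Finset.sum_sub_distrib, Finset.sum_ite_mem, univ_inter, Finset.sum_const,
      nsmul_eq_mul, card_univ]
    ring
  rw [Finset.sum_add_distrib] at l3
  rw [← Finset.add_sum_erase _ _ (mem_univ r)] at l4 l6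
  rw [show min 0 7 = 0 from rfl] at l1
  rw [← hI2]
  have : 127 * (I.card : ℤ) + 22 ≤ 79 * Fintype.card V := by linarith
  exact_mod_cast this

def Ex (d : ℕ) (S : Finset ℕ) (n a : ℕ) (s : Bool) : Prop :=
  ∃ (V : Type) (_ : Fintype V) (G : SimpleGraph V) (r : V) (L : V → ℕ) (I : Finset V),
    G.Connected ∧ Fintype.card V = n ∧ ∑ v, (G.neighborSet v).ncard + 2 = 2 * n ∧ L r = d ∧
    (∀ v, v ≠ r → (G.neighborSet v).ncard = L v) ∧ (G.neighborSet r).ncard = S.card ∧
    (∀ v a b, G.Adj v a → G.Adj v b → L a = L b → a = b) ∧ (∀ a, G.Adj r a → L a ∈ S) ∧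
    G.IsIndepSet I ∧ I.card = a ∧ (r ∈ I → s = true)

theorem base (d : ℕ) (s : Bool) : Ex d ∅ 1 s.toNat s := by
  refine ⟨Unit, inferInstance, ⊥, (), fun _ => d, if s then {()} else ∅, ?_, rfl, by simp, rfl,
    fun v h => absurd rfl h, by simp, fun _ _ _ _ _ _ => rfl, by simp, ?_, ?_, ?_⟩
  · exact ⟨fun _ _ => Reachable.refl _⟩
  · intro a _ b _ h
    exact absurd rfl h
  · cases s <;> rfl
  · cases s <;> simp

theorem att {d d' n n' a a' : ℕ} {S S' : Finset ℕ} {s s' : Bool} (h1 : Ex d S n a s)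
    (h2 : Ex d' S' n' a' s') (hc : S'.card + 1 = d' ∧ d ∉ S' ∧ d' ∉ S ∧ (s = true → s' = false)) :
    Ex d (insert d' S) (n + n') (a + a') s := by
  classical
  obtain ⟨c1, c2, c3, c4⟩ := hc
  obtain ⟨V, _, G, r, L, I, a1, a2, a3, a4, a5, a6, a7, a8, a9, a10, a11⟩ := h1
  obtain ⟨W, _, H, q, M, J, b1, b2, b3, b4, b5, b6, b7, b8, b9, b10, b11⟩ := h2
  set K : SimpleGraph (V ⊕ W) := (G ⊕g H) ⊔ edge (Sum.inl r) (Sum.inr q) with hK
  have e1 : ∀ x y, K.Adj (.inl x) (.inl y) ↔ G.Adj x y := fun x y => by simp [hK, edge_adj]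
  have e2 : ∀ x y, K.Adj (.inr x) (.inr y) ↔ H.Adj x y := fun x y => by simp [hK, edge_adj]
  have e3 : ∀ x y, K.Adj (.inl x) (.inr y) ↔ x = r ∧ y = q := fun x y => by simp [hK, edge_adj]
  have e4 : ∀ x y, K.Adj (.inr y) (.inl x) ↔ x = r ∧ y = q := fun x y => by
    rw [K.adj_comm, e3]
  have n1 : ∀ x, (K.neighborSet (.inl x)).ncard =
      (G.neighborSet x).ncard + if x = r then 1 else 0 := by
    intro x
    rw [← Set.ncard_image_of_injective (G.neighborSet x) (Sum.inl_injective (β := W))]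
    split_ifs with hx
    · rw [← Set.ncard_insert_of_notMem (a := Sum.inr q) (by simp)]
      congr 1
      ext (y | y) <;> simp [e1, e3, hx]
    · rw [add_zero]
      congr 1
      ext (y | y) <;> simp [e1, e3, hx]
  have n2 : ∀ x, (K.neighborSet (.inr x)).ncard =
      (H.neighborSet x).ncard + if x = q then 1 else 0 := by
    intro x
    rw [← Set.ncard_image_of_injective (H.neighborSet x) (Sum.inr_injective (α := V))]
    split_ifs with hx
    · rw [← Set.ncard_insert_of_notMem (a := Sum.inl r) (by simp)]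
      congr 1
      ext (y | y) <;> simp [e2, e4, hx]
    · rw [add_zero]
      congr 1
      ext (y | y) <;> simp [e2, e4, hx]
  refine ⟨V ⊕ W, inferInstance, K, .inl r, Sum.elim L M, I.disjSum J, a1.sum_sup_edge b1,
    by simp [a2, b2], ?_, a4, ?_, ?_, ?_, ?_, ?_, by simp [a10, b10], by simpa using a11⟩
  · simp only [Fintype.sum_sum_type, n1, n2, Finset.sum_add_distrib, Finset.sum_ite_eq',
      mem_univ, if_true]
    omega
  · rintro (x | x) hx
    · have : x ≠ r := fun h => hx (by rw [h])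
      rw [n1, if_neg this, a5 x this]
      rfl
    · rw [n2]
      by_cases hq : x = q
      · rw [if_pos hq, hq, b6, c1, ← b4]
        rfl
      · rw [if_neg hq, b5 x hq]
        rfl
  · rw [n1, if_pos rfl, a6, card_insert_of_notMem c3]
  · rintro (v | v) (x | x) (y | y) hx hy e <;>
      simp only [e1, e2, e3, e4, Sum.elim_inl, Sum.elim_inr] at hx hy e
    · rw [a7 v x y hx hy e]
    · obtain ⟨rfl, rfl⟩ := hy
      exact absurd (b4 ▸ e ▸ a8 x hx) c3
    · obtain ⟨rfl, rfl⟩ := hx
      exact absurd (b4 ▸ e ▸ a8 y hy) c3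
    · rw [hx.2, hy.2]
    · rw [hx.1, hy.1]
    · obtain ⟨rfl, rfl⟩ := hx
      exact absurd (a4 ▸ e ▸ b8 y hy) c2
    · obtain ⟨rfl, rfl⟩ := hy
      exact absurd (a4 ▸ e ▸ b8 x hx) c2
    · rw [b7 v x y hx hy e]
  · rintro (x | x) hx
    · exact mem_insert_of_mem (a8 x ((e1 _ _).1 hx))
    · rw [((e3 _ _).1 hx).2]
      exact mem_insert.2 (Or.inl b4)
  · rintro (x | x) hx (y | y) hy hne e <;>
      simp only [e1, e2, e3, e4, mem_coe, inl_mem_disjSum, inr_mem_disjSum] at hx hy e
    · exact a9 hx hy e.ne e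
    · obtain ⟨rfl, rfl⟩ := e
      have := c4 (a11 hx)
      rw [b11 hy] at this
      cases this
    · obtain ⟨rfl, rfl⟩ := e
      have := c4 (a11 hy)
      rw [b11 hx] at this
      cases this
    · exact b9 hx hy e.ne e

theorem fin {d n a : ℕ} {S : Finset ℕ} {s : Bool} (h1 : Ex d S n a s) (hc : S.card = d) :
    ∃ (V : Type) (_ : Fintype V) (G : SimpleGraph V), G.IsTree ∧
      (∀ v a b, G.Adj v a → G.Adj v b → a ≠ b →
        (G.neighborSet a).ncard ≠ (G.neighborSet b).ncard) ∧
      Fintype.card V = n ∧ a ≤ G.indepNum := by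
  classical
  obtain ⟨V, _, G, r, L, I, a1, a2, a3, a4, a5, a6, a7, a8, a9, a10, a11⟩ := h1
  have hL : ∀ v, (G.neighborSet v).ncard = L v := fun v => by
    by_cases hv : v = r
    · rw [hv, a6, hc, a4]
    · exact a5 v hv
  refine ⟨V, inferInstance, G, ?_, fun v x y hx hy hne e => hne (a7 v x y hx hy ?_), a2,
    a10 ▸ a9.card_le_indepNum⟩
  · rw [isTree_iff_connected_and_card]
    refine ⟨a1, ?_⟩
    have h := G.sum_degrees_eq_twice_card_edges
    have h2 : ∀ v, (G.neighborSet v).ncard = G.degree v := fun v => by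
      rw [← card_neighborFinset_eq_degree, ← Set.ncard_coe_finset, coe_neighborFinset]
    simp only [h2] at a3
    rw [Nat.card_eq_fintype_card, Nat.card_eq_fintype_card, ← edgeFinset_card]
    omega
  · rw [← hL, ← hL, e]

theorem b1 (d : ℕ) : Ex d ∅ 1 1 true := base d true
theorem b0 (d : ℕ) : Ex d ∅ 1 0 false := base d false
theorem t20 : Ex 2 {1} 2 1 false := att (b0 2) (b1 1) (by decide)
theorem t21 : Ex 2 {2} 3 2 true := att (b1 2) t20 (by decide)
theorem pre (d : ℕ) (hd : 3 ≤ d) : Ex d {2, 1} 5 3 false :=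
  att (att (b0 d) (b1 1) (by simp)) t21 (by simp; omega)
theorem t30 : Ex 3 {2, 1} 5 3 false := pre 3 le_rfl
theorem t341 : Ex 3 {3, 2} 8 5 true := att (att (b1 3) t20 (by decide)) t30 (by decide)
theorem t440 : Ex 4 {3, 2, 1} 13 8 false := att (pre 4 (by decide)) t341 (by decide)
theorem t430 : Ex 4 {4, 2, 1} 18 11 false := att (pre 4 (by decide)) t440 (by decide)
theorem t31 : Ex 3 {4, 3} 24 15 true := att (att (b1 3) t30 (by decide)) t430 (by decide)
theorem t331 : Ex 3 {4, 2} 21 13 true := att (att (b1 3) t20 (by decide)) t430 (by decide)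
theorem r26 : Ex 3 {3, 2, 1} 26 16 false := att t30 t331 (by decide)
theorem p4 : Ex 4 {4, 3} 19 12 true := att (att (b1 4) t30 (by decide)) t440 (by decide)
theorem t451 : Ex 4 {2, 4, 3} 21 13 true := att p4 t20 (by decide)
theorem p5 : Ex 5 {3, 2, 1} 29 18 false := att (pre 5 (by decide)) t31 (by decide)
theorem p6 : Ex 6 {3, 2, 1} 29 18 false := att (pre 6 (by decide)) t31 (by decide)
theorem t50 : Ex 5 {4, 3, 2, 1} 50 31 false := att p5 t451 (by decide)
theorem t540 : Ex 5 {5, 3, 2, 1} 79 49 false := att p5 t50 (by decide)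
theorem t461 : Ex 4 {5, 4, 3} 98 61 true := att p4 t540 (by decide)
theorem t660 : Ex 6 {5, 4, 3, 2, 1} 177 110 false :=
  att (att p6 t461 (by decide)) t50 (by decide)

theorem cyc (j : ℕ) : Ex 5 {4, 3, 2, 1} (50 + 254 * j) (31 + 158 * j) false := by
  induction j with
  | zero => exact t50
  | succ j ih =>
    have h := att p5 (att p4 (att (att p6 t660 (by decide)) ih (by decide)) (by decide))
      (by decide)
    convert h using 1 <;> ring

theorem fam (j : ℕ) : Ex 5 {5, 4, 3, 2, 1} (100 + 254 * j) (62 + 158 * j) false := by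
  have h := att (cyc j) t50 (by decide)
  convert h using 1 <;> ring

end Pool.Agent.H.MP_913bbb_co
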